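import Pool.Agent.H5.PW.Tube

open MeasureTheory Metric Set Module
open scoped ENNReal NNReal Pointwise

namespace Pool.Agent.H5.PW

variable {V : Type*} [NormedAddCommGroup V] [InnerProductSpace ℝ V] [FiniteDimensional ℝ V]
  [MeasurableSpace V] [BorelSpace V]

omit [FiniteDimensional ℝ V] [MeasurableSpace V] [BorelSpace V] in
theorem perp_le (e z : V) (he : ‖e‖ = 1) : ‖z - (inner ℝ z e : ℝ) • e‖ ≤ 2 * ‖z‖ := by
  have h1 : |(inner ℝ z e : ℝ)| ≤ ‖z‖ := by
    have := abs_real_inner_le_norm z e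
    rwa [he, mul_one] at this
  calc ‖z - (inner ℝ z e : ℝ) • e‖ ≤ ‖z‖ + ‖(inner ℝ z e : ℝ) • e‖ := norm_sub_le _ _
    _ ≤ ‖z‖ + ‖z‖ := by
        rw [norm_smul, he, mul_one, Real.norm_eq_abs]
        gcongr
    _ = 2 * ‖z‖ := by ring

omit [FiniteDimensional ℝ V] in
theorem short_ne_zero (μ : Measure V) [μ.IsOpenPosMeasure] (r δ : ℝ) (hr : 0 < r) (hδ : 0 < δ)
    (e a : V) (he : ‖e‖ = 1) : μ (short r δ e a) ≠ 0 := by
  have hm : 0 < min (r / 2) (δ / 2) := by positivity
  have hsub : ball a (min (r / 2) (δ / 2)) ⊆ short r δ e a := by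
    intro y hy
    rw [mem_ball, dist_eq_norm] at hy
    have h1 : |(inner ℝ (y - a) e : ℝ)| ≤ ‖y - a‖ := by
      have := abs_real_inner_le_norm (y - a) e
      rwa [he, mul_one] at this
    refine ⟨h1.trans (hy.le.trans (min_le_left _ _)), (perp_le e (y - a) he).trans ?_⟩
    have := hy.le.trans (min_le_right _ _)
    linarith
  exact ((isOpen_ball.measure_pos μ ⟨a, mem_ball_self hm⟩).trans_le (measure_mono hsub)).ne'

omit [FiniteDimensional ℝ V] [MeasurableSpace V] [BorelSpace V] in
theorem short_norm (r δ : ℝ) (e a y : V) (he : ‖e‖ = 1) (hy : y ∈ short r δ e a) :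
    ‖y - a‖ ≤ r / 2 + δ := by
  obtain ⟨h1, h2⟩ := hy
  calc ‖y - a‖ = ‖(inner ℝ (y - a) e : ℝ) • e + ((y - a) - (inner ℝ (y - a) e : ℝ) • e)‖ := by
        congr 1
        abel
    _ ≤ ‖(inner ℝ (y - a) e : ℝ) • e‖ + ‖(y - a) - (inner ℝ (y - a) e : ℝ) • e‖ :=
        norm_add_le _ _
    _ ≤ r / 2 + δ := by
        rw [norm_smul, he, mul_one, Real.norm_eq_abs]
        exact add_le_add h1 h2

theorem short_ne_top (μ : Measure V) [μ.IsAddHaarMeasure] (r δ : ℝ) (e a : V) (he : ‖e‖ = 1) :
    μ (short r δ e a) ≠ ∞ := by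
  have hsub : short r δ e a ⊆ closedBall a (r / 2 + δ) := by
    intro y hy
    rw [mem_closedBall, dist_eq_norm]
    exact short_norm r δ e a y he hy
  exact ((measure_mono hsub).trans_lt measure_closedBall_lt_top).ne

omit [FiniteDimensional ℝ V] in
theorem short_vol (μ : Measure V) [μ.IsAddLeftInvariant] (r δ : ℝ) (e a : V) :
    μ (short r δ e a) = μ (short r δ e 0) := by
  have : short r δ e 0 = (fun y => a + y) ⁻¹' short r δ e a := by
    ext y
    simp only [short, mem_setOf_eq, mem_preimage, sub_zero, add_sub_cancel_left]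
  rw [this, measure_preimage_add]

omit [FiniteDimensional ℝ V] [MeasurableSpace V] [BorelSpace V] in
theorem short_symm (r δ : ℝ) (e a y : V) : y ∈ short r δ e a ↔ a ∈ short r δ e y := by
  have h : a - y = -(y - a) := by abel
  simp only [short, mem_setOf_eq]
  rw [h, inner_neg_left, abs_neg, neg_smul, neg_sub_neg, norm_sub_rev]

/-- The average over a tube is bounded by the averages over the shorter and thinner tubes. -/
theorem avg_short (μ : Measure V) [μ.IsAddHaarMeasure] (h : V → ℝ≥0∞) (hh : AEMeasurable h μ)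
    (e a : V) (he : ‖e‖ = 1) (δ δ' r : ℝ) (hδ' : 0 < δ') (hδ : δ' ≤ δ) (hr : 0 < r) (hr1 : r ≤ 1)
    (M : ℝ≥0∞) (hM : ∀ b, (μ (short r δ' e b))⁻¹ * ∫⁻ y in short r δ' e b, h y ∂μ ≤ M) :
    (μ (short 1 δ e a))⁻¹ * ∫⁻ y in short 1 δ e a, h y ∂μ ≤ 2 ^ finrank ℝ V * M := by
  set T := short 1 δ e a with hT
  set T' := short (2 * 1) (2 * δ) e a with hT'
  set q := μ (short r δ' e 0) with hq
  have hTm : MeasurableSet T := measurableSet_short _ _ _ _
  have hTm' : MeasurableSet T' := measurableSet_short _ _ _ _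
  have hq0 : q ≠ 0 := short_ne_zero μ r δ' hr hδ' e 0 he
  have hqt : q ≠ ∞ := short_ne_top μ r δ' e 0 he
  have hsub : ∀ y ∈ T, short r δ' e y ⊆ T' := by
    intro y hy b hb
    obtain ⟨h1, h2⟩ := hy
    obtain ⟨h3, h4⟩ := hb
    have h5 : b - a = (b - y) + (y - a) := by abel
    refine ⟨?_, ?_⟩
    · rw [h5, inner_add_left]
      refine (abs_add_le _ _).trans ?_
      linarith
    · have h6 : b - a - (inner ℝ (b - a) e : ℝ) • e =
          ((b - y) - (inner ℝ (b - y) e : ℝ) • e) + ((y - a) - (inner ℝ (y - a) e : ℝ) • e) := by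
        rw [h5, inner_add_left, add_smul]
        abel
      rw [h6]
      refine (norm_add_le _ _).trans ?_
      linarith
  set S : Set (V × V) := {z | |inner ℝ (z.2 - z.1) e| ≤ r / 2 ∧
    ‖(z.2 - z.1) - (inner ℝ (z.2 - z.1) e : ℝ) • e‖ ≤ δ'} with hS
  have hSm : MeasurableSet S := by
    have h1 : IsClosed {z : V × V | |(inner ℝ (z.2 - z.1) e : ℝ)| ≤ r / 2} :=
      isClosed_le (by fun_prop) continuous_const
    have h2 : IsClosed {z : V × V | ‖(z.2 - z.1) - (inner ℝ (z.2 - z.1) e : ℝ) • e‖ ≤ δ'} :=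
      isClosed_le (by fun_prop) continuous_const
    exact (h1.inter h2).measurableSet
  have hkey : q * ∫⁻ y in T, h y ∂μ ≤ μ T' * (M * q) := by
    calc q * ∫⁻ y in T, h y ∂μ = ∫⁻ y in T, q * h y ∂μ := (lintegral_const_mul' _ _ hqt).symm
      _ ≤ ∫⁻ y in T, ∫⁻ b in T', S.indicator (fun z => h z.1) (y, b) ∂μ ∂μ := by
          refine setLIntegral_mono' hTm fun y hy => ?_
          have h1 : ∀ b, S.indicator (fun z => h z.1) (y, b) =
              (short r δ' e y).indicator (fun _ => h y) b := by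
            intro b
            by_cases hb : b ∈ short r δ' e y
            · rw [indicator_of_mem hb, indicator_of_mem (show (y, b) ∈ S from hb)]
            · rw [indicator_of_notMem hb, indicator_of_notMem (show (y, b) ∉ S from hb)]
          rw [lintegral_congr h1, lintegral_indicator (measurableSet_short _ _ _ _),
            setLIntegral_const, Measure.restrict_apply (measurableSet_short _ _ _ _),
            inter_eq_left.2 (hsub y hy), short_vol, mul_comm]
      _ = ∫⁻ b in T', ∫⁻ y in T, S.indicator (fun z => h z.1) (y, b) ∂μ ∂μ := by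
          refine lintegral_lintegral_swap ?_
          refine AEMeasurable.indicator ?_ hSm
          have h1 : AEMeasurable h (μ.restrict T) := hh.restrict
          exact h1.comp_quasiMeasurePreserving Measure.quasiMeasurePreserving_fst
      _ ≤ ∫⁻ _b in T', M * q ∂μ := by
          refine setLIntegral_mono' hTm' fun b _ => ?_
          have h1 : ∫⁻ y in T, S.indicator (fun z => h z.1) (y, b) ∂μ ≤
              ∫⁻ y in short r δ' e b, h y ∂μ := by
            rw [← lintegral_indicator (measurableSet_short r δ' e b)]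
            refine (setLIntegral_le_lintegral _ _).trans (lintegral_mono fun y => ?_)
            by_cases hb : (y, b) ∈ S
            · have : y ∈ short r δ' e b := (short_symm r δ' e b y).2 hb
              rw [indicator_of_mem hb, indicator_of_mem this]
            · rw [indicator_of_notMem hb]
              exact zero_le
          refine h1.trans ?_
          have h2 := hM b
          rw [short_vol μ r δ' e b, ← hq] at h2
          calc ∫⁻ y in short r δ' e b, h y ∂μ
              = (q⁻¹ * ∫⁻ y in short r δ' e b, h y ∂μ) * q := by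
                rw [mul_comm q⁻¹, mul_assoc, ENNReal.inv_mul_cancel hq0 hqt, mul_one]
            _ ≤ M * q := by gcongr
      _ = μ T' * (M * q) := by
          rw [setLIntegral_const, mul_comm]
  have hint : ∫⁻ y in T, h y ∂μ ≤ μ T' * M := by
    have h1 : q * ∫⁻ y in T, h y ∂μ ≤ q * (μ T' * M) := by
      calc q * ∫⁻ y in T, h y ∂μ ≤ μ T' * (M * q) := hkey
        _ = q * (μ T' * M) := by ring
    exact (ENNReal.mul_le_mul_iff_right hq0 hqt).1 h1
  calc (μ T)⁻¹ * ∫⁻ y in T, h y ∂μ ≤ (μ T)⁻¹ * (2 ^ finrank ℝ V * μ T * M) := by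
        refine mul_le_mul' le_rfl (hint.trans ?_)
        gcongr
        exact double_tube μ 1 δ e a
    _ = ((μ T)⁻¹ * μ T) * (2 ^ finrank ℝ V * M) := by ring
    _ ≤ 1 * (2 ^ finrank ℝ V * M) := by
        gcongr
        exact ENNReal.inv_mul_le_one _
    _ = 2 ^ finrank ℝ V * M := one_mul _

end Pool.Agent.H5.PW
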