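import Mathlib

open MeasureTheory Metric Set
open scoped ENNReal NNReal Pointwise

namespace Pool.Agent.H5.PW

variable {V : Type*} [NormedAddCommGroup V] [InnerProductSpace ℝ V] [FiniteDimensional ℝ V]
  [MeasurableSpace V] [BorelSpace V]

/-- The core inequality: expansion of a power of an integral. -/
theorem core {Ω : Type*} [MeasurableSpace Ω] (P : Measure Ω) [SFinite P] (μ : Measure V)
    [μ.IsAddHaarMeasure] (A₀ : Set V) (hA₀ : A₀.Countable) (A' : Set V) (hA' : MeasurableSet A')
    (K : Set (V × Ω)) (hK : MeasurableSet K) (φ ψ : V × Ω → ℝ≥0∞) (hφ : Measurable φ)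
    (hψ : Measurable ψ) (h : ∀ a e ω, (e, ω) ∈ K → φ (a, ω) ≤ ψ (a + e, ω)) (p : ℕ) :
    ∀ (L : Set V), MeasurableSet L → (∀ a ∈ A₀, ∀ e ∈ L, a + e ∈ A') →
      ∀ (u w : V → ℝ≥0∞), Measurable w → (∀ a ∈ A₀, ∀ e ∈ L, u a ≤ w (a + e)) →
      ∫⁻ e in L, ⨆ a ∈ A₀, u a * (∫⁻ ω, K.indicator (fun z => φ (a, z.2)) (e, ω) ∂P) ^ p ∂μ ≤
        ∫⁻ x in A', w x * (∫⁻ ω, ψ (x, ω) ∂P) ^ p ∂μ := by
  induction p with
  | zero =>
    intro L hL hsub u w hw huw
    simp only [pow_zero, mul_one]
    rw [lintegral_const, ENNReal.iSup_mul]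
    refine iSup_le fun a => ?_
    rw [ENNReal.iSup_mul]
    refine iSup_le fun ha => ?_
    have h1 : u a * μ.restrict L univ = ∫⁻ _ in L, u a ∂μ := (lintegral_const _).symm
    rw [h1]
    calc ∫⁻ _ in L, u a ∂μ ≤ ∫⁻ e in L, A'.indicator w (a + e) ∂μ := by
          refine setLIntegral_mono' hL fun e he => ?_
          rw [indicator_of_mem (hsub a ha e he)]
          exact huw a ha e he
      _ ≤ ∫⁻ e, A'.indicator w (a + e) ∂μ := setLIntegral_le_lintegral _ _
      _ = ∫⁻ e, A'.indicator w e ∂μ := lintegral_add_left_eq_self _ _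
      _ = ∫⁻ x in A', w x ∂μ := lintegral_indicator hA' _
  | succ p ih =>
    intro L hL hsub u w hw huw
    set I : V → V → ℝ≥0∞ := fun e a => ∫⁻ ω, K.indicator (fun z => φ (a, z.2)) (e, ω) ∂P with hI
    have hm1 : ∀ a, Measurable (K.indicator (fun z : V × Ω => φ (a, z.2))) := fun a =>
      (hφ.comp (by fun_prop : Measurable fun z : V × Ω => (a, z.2))).indicator hK
    have hmI : ∀ a, Measurable fun e => I e a := fun a => (hm1 a).lintegral_prod_right'
    set F : V → ℝ≥0∞ := fun x => ∫⁻ ω, ψ (x, ω) ∂P with hF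
    have hmF : Measurable F := hψ.lintegral_prod_right'
    have hstep : ∀ e a, u a * I e a ^ (p + 1) =
        ∫⁻ ω, K.indicator (fun z => φ (a, z.2)) (e, ω) * (u a * I e a ^ p) ∂P := by
      intro e a
      have hm : Measurable fun ω : Ω => K.indicator (fun z : V × Ω => φ (a, z.2)) (e, ω) :=
        (hm1 a).comp (by fun_prop : Measurable fun ω : Ω => (e, ω))
      rw [lintegral_mul_const _ hm, pow_succ]
      ring
    calc ∫⁻ e in L, ⨆ a ∈ A₀, u a * I e a ^ (p + 1) ∂μ
        ≤ ∫⁻ e in L, ∫⁻ ω, ⨆ a ∈ A₀, K.indicator (fun z => φ (a, z.2)) (e, ω) *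
            (u a * I e a ^ p) ∂P ∂μ := by
          refine lintegral_mono fun e => ?_
          refine iSup₂_le fun a ha => ?_
          rw [hstep]
          refine lintegral_mono fun ω => ?_
          exact le_iSup₂ (f := fun a (_ : a ∈ A₀) => K.indicator (fun z => φ (a, z.2)) (e, ω) *
            (u a * I e a ^ p)) a ha
      _ = ∫⁻ ω, ∫⁻ e in L, ⨆ a ∈ A₀, K.indicator (fun z => φ (a, z.2)) (e, ω) *
            (u a * I e a ^ p) ∂μ ∂P := by
          refine lintegral_lintegral_swap ?_
          refine Measurable.aemeasurable ?_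
          refine Measurable.biSup _ hA₀ fun a _ => ?_
          refine Measurable.mul (hm1 a) ?_
          exact (((hmI a).comp measurable_fst).pow_const p).const_mul _
      _ ≤ ∫⁻ ω, ∫⁻ x in A', (w x * ψ (x, ω)) * F x ^ p ∂μ ∂P := by
          refine lintegral_mono fun ω => ?_
          set Lω : Set V := L ∩ (fun e => (e, ω)) ⁻¹' K with hLω
          have hLm : MeasurableSet Lω := hL.inter (measurable_prodMk_right hK)
          have h2 := ih Lω hLm (fun a ha e he => hsub a ha e he.1) (fun a => u a * φ (a, ω))
            (fun x => w x * ψ (x, ω))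
            (hw.mul (hψ.comp (by fun_prop : Measurable fun x : V => (x, ω))))
            (fun a ha e he => mul_le_mul' (huw a ha e he.1) (h a e ω he.2))
          refine le_trans ?_ h2
          rw [← lintegral_indicator hL, ← lintegral_indicator hLm]
          refine lintegral_mono fun e => ?_
          by_cases heL : e ∈ L
          · by_cases heK : (e, ω) ∈ K
            · rw [indicator_of_mem heL, indicator_of_mem (show e ∈ Lω from ⟨heL, heK⟩)]
              refine iSup₂_mono fun a ha => ?_
              rw [indicator_of_mem heK]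
              simp only [hI]
              rw [mul_comm (u a) (φ (a, ω)), mul_assoc]
            · rw [indicator_of_mem heL]
              refine le_trans (le_of_eq ?_) zero_le
              simp [indicator_of_notMem heK]
          · rw [indicator_of_notMem heL]
            exact zero_le
      _ = ∫⁻ x in A', ∫⁻ ω, (w x * ψ (x, ω)) * F x ^ p ∂P ∂μ := by
          refine lintegral_lintegral_swap ?_
          refine Measurable.aemeasurable ?_
          refine Measurable.mul (Measurable.mul (hw.comp measurable_snd) ?_) ?_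
          · exact hψ.comp measurable_swap
          · exact (hmF.comp measurable_snd).pow_const p
      _ = ∫⁻ x in A', w x * F x ^ (p + 1) ∂μ := by
          refine lintegral_congr fun x => ?_
          have hm : Measurable fun ω : Ω => ψ (x, ω) :=
            hψ.comp (by fun_prop : Measurable fun ω : Ω => (x, ω))
          rw [lintegral_mul_const _ (hm.const_mul _), lintegral_const_mul _ hm]
          simp only [hF]
          rw [pow_succ]
          ring

end Pool.Agent.H5.PW
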