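import Mathlib

open MeasureTheory Metric Set Module
open scoped ENNReal NNReal Pointwise

namespace Pool.Agent.H5.PW

variable {V : Type*} [NormedAddCommGroup V] [InnerProductSpace ℝ V] [FiniteDimensional ℝ V]
  [MeasurableSpace V] [BorelSpace V]

/-- The integral over a sphere of a function which increases towards the origin along rays. -/
theorem sphere_le_ball (μ : Measure V) [μ.IsAddHaarMeasure] (G : V → ℝ≥0∞) (hG : Measurable G)
    (hmono : ∀ (t : ℝ) (x : V), 0 < t → t ≤ 1 → G x ≤ G (t • x)) (r : ℝ) (hr : 0 < r) :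
    ENNReal.ofReal (r ^ finrank ℝ V) *
        ∫⁻ e : sphere (0 : V) 1, G (r • (e : V)) ∂μ.toSphere ≤
      finrank ℝ V * ∫⁻ x in closedBall 0 r, G x ∂μ := by
  rcases Nat.eq_zero_or_pos (finrank ℝ V) with h0 | h0
  · have : μ.toSphere = 0 := μ.toSphere_eq_zero_iff_finrank.2 h0
    rw [this]
    simp
  · set σ := μ.toSphere with hσ
    set τ := Measure.volumeIoiPow (finrank ℝ V - 1) with hτ
    set ι := homeomorphUnitSphereProd V with hι
    have hmp : MeasurePreserving ι (μ.comap (↑)) (σ.prod τ) :=
      μ.measurePreserving_homeomorphUnitSphereProd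
    set R : Ioi (0 : ℝ) := ⟨r, hr⟩ with hR
    set f : sphere (0 : V) 1 → ℝ≥0∞ := fun e => G (r • (e : V)) with hf
    have hfm : Measurable f := hG.comp (by fun_prop)
    set g : Ioi (0 : ℝ) → ℝ≥0∞ := (Iio R).indicator 1 with hg
    have hgm : Measurable g := measurable_one.indicator measurableSet_Iio
    have h1 : ∫⁻ z, f z.1 * g z.2 ∂(σ.prod τ) = (∫⁻ e, f e ∂σ) * ∫⁻ ρ, g ρ ∂τ :=
      lintegral_prod_mul hfm.aemeasurable hgm.aemeasurable
    have h2 : ∫⁻ ρ, g ρ ∂τ = ENNReal.ofReal (r ^ finrank ℝ V / finrank ℝ V) := by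
      rw [hg, lintegral_indicator_one measurableSet_Iio, hτ, Measure.volumeIoiPow_apply_Iio]
      rw [Nat.sub_add_cancel h0, Nat.cast_pred h0, sub_add_cancel]
    have h3 : ∫⁻ z, f z.1 * g z.2 ∂(σ.prod τ) =
        ∫⁻ x : ({0}ᶜ : Set V), f (ι x).1 * g (ι x).2 ∂(μ.comap (↑)) := by
      rw [← hmp.lintegral_comp]
      exact (hfm.comp measurable_fst).mul (hgm.comp measurable_snd)
    have h4 : ∫⁻ x : ({0}ᶜ : Set V), f (ι x).1 * g (ι x).2 ∂(μ.comap (↑)) ≤
        ∫⁻ x in closedBall 0 r, G x ∂μ := by
      calc ∫⁻ x : ({0}ᶜ : Set V), f (ι x).1 * g (ι x).2 ∂(μ.comap (↑))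
          ≤ ∫⁻ x : ({0}ᶜ : Set V), (closedBall 0 r).indicator G (x : V) ∂(μ.comap (↑)) := by
            refine lintegral_mono fun x => ?_
            by_cases hx : (ι x).2 ∈ Iio R
            · have hxn : ‖(x : V)‖ < r := by
                have h5 : ((ι x).2 : ℝ) < r := hx
                rwa [hι, homeomorphUnitSphereProd_apply_snd_coe] at h5
              have hx0 : (x : V) ≠ 0 := x.2
              have hn0 : 0 < ‖(x : V)‖ := norm_pos_iff.2 hx0
              rw [indicator_of_mem (show (x : V) ∈ closedBall (0 : V) r by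
                rw [mem_closedBall, dist_zero_right]; exact hxn.le)]
              rw [hg, indicator_of_mem hx, Pi.one_apply, mul_one, hf]
              simp only [hι, homeomorphUnitSphereProd_apply_fst_coe]
              have h6 := hmono (‖(x : V)‖ / r) (r • (‖(x : V)‖⁻¹ • (x : V))) (by positivity)
                ((div_le_one hr).2 hxn.le)
              have h7 : (‖(x : V)‖ / r) • (r • (‖(x : V)‖⁻¹ • (x : V))) = (x : V) := by
                rw [smul_smul, smul_smul]
                have : ‖(x : V)‖ / r * r * ‖(x : V)‖⁻¹ = 1 := by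
                  field_simp
                rw [this, one_smul]
              rw [h7] at h6
              exact h6
            · rw [hg, indicator_of_notMem hx, mul_zero]
              exact zero_le
        _ = ∫⁻ x in ({0}ᶜ : Set V), (closedBall 0 r).indicator G x ∂μ :=
            lintegral_subtype_comap (measurableSet_singleton _).compl _
        _ ≤ ∫⁻ x, (closedBall 0 r).indicator G x ∂μ := setLIntegral_le_lintegral _ _
        _ = ∫⁻ x in closedBall 0 r, G x ∂μ := lintegral_indicator measurableSet_closedBall _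
    have h8 : (∫⁻ e, f e ∂σ) * ENNReal.ofReal (r ^ finrank ℝ V / finrank ℝ V) ≤
        ∫⁻ x in closedBall 0 r, G x ∂μ := by
      rw [← h2, ← h1, h3]
      exact h4
    have hd : (0 : ℝ) < finrank ℝ V := by exact_mod_cast h0
    calc ENNReal.ofReal (r ^ finrank ℝ V) * ∫⁻ e, f e ∂σ
        = finrank ℝ V * ((∫⁻ e, f e ∂σ) * ENNReal.ofReal (r ^ finrank ℝ V / finrank ℝ V)) := by
          have : ENNReal.ofReal (r ^ finrank ℝ V) =
              finrank ℝ V * ENNReal.ofReal (r ^ finrank ℝ V / finrank ℝ V) := by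
            rw [← ENNReal.ofReal_natCast, ← ENNReal.ofReal_mul (by positivity)]
            congr 1
            field_simp
          rw [this]
          ring
      _ ≤ _ := by gcongr

end Pool.Agent.H5.PW
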