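import Pool.Agent.H5.PW.Point
import Pool.Agent.H5.PW.Polar

open MeasureTheory Metric Set Module
open scoped ENNReal NNReal Pointwise

namespace Pool.Agent.H5.PW

variable {V : Type*} [NormedAddCommGroup V] [InnerProductSpace ℝ V] [FiniteDimensional ℝ V]
  [MeasurableSpace V] [BorelSpace V]

theorem pow_sum_range (N p : ℕ) (f : ℕ → ℝ≥0∞) :
    (∑ k ∈ Finset.range N, f k) ^ (p + 1) ≤ (N : ℝ≥0∞) ^ p * ∑ k ∈ Finset.range N, f k ^ (p + 1) := by
  have h := ENNReal.rpow_sum_le_const_mul_sum_rpow (Finset.range N) f (p := ((p + 1 : ℕ) : ℝ))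
    (by push_cast; linarith [show (0 : ℝ) ≤ p from Nat.cast_nonneg p])
  have h1 : (((p + 1 : ℕ) : ℝ) - 1) = (p : ℕ) := by push_cast; ring
  rw [h1, Finset.card_range] at h
  simp only [ENNReal.rpow_natCast] at h
  exact h

/-- The maximal estimate for functions that are bounded by a superposition of plane waves. -/
theorem main_est {Ω : Type*} [MeasurableSpace Ω] (P : Measure Ω) [SFinite P] (μ : Measure V)
    [μ.IsAddHaarMeasure] (ν : Ω → V) (hν : Measurable ν) (hν1 : ∀ ω, ‖ν ω‖ = 1)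
    (g : Ω × ℝ → ℝ≥0∞) (hg : Measurable g) (K : Set V) (h : V → ℝ≥0∞) (hh : AEMeasurable h μ)
    (hK : ∀ x ∈ K, h x ≤ wave P ν g x) (hK0 : ∀ x ∉ K, h x = 0) (η r δ δ' : ℝ) (hr : 0 < r)
    (hr1 : r ≤ 1) (hη : 12 * r ≤ η) (hδ' : 0 < δ') (hδ : δ' ≤ δ) (hδr : δ' ≤ r) (N : ℕ)
    (hN : r * (1 / 2) ^ N < δ') (hN1 : 1 ≤ N) (p : ℕ) :
    ENNReal.ofReal (r ^ finrank ℝ V) * ∫⁻ e : sphere (0 : V) 1,
        (⨆ a : V, (μ (short 1 δ (e : V) a))⁻¹ * ∫⁻ y in short 1 δ (e : V) a, h y ∂μ) ^ (p + 1)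
          ∂μ.toSphere ≤
      finrank ℝ V * (((2 ^ finrank ℝ V * (2 ^ finrank ℝ V * 2)) * N *
        (14 * 8 ^ finrank ℝ V)) ^ (p + 1) *
          ∫⁻ x in thickening η K, wave P ν g x ^ (p + 1) ∂μ) := by
  obtain ⟨A₀, hA₀s, hA₀c, hA₀d⟩ :=
    (TopologicalSpace.IsSeparable.of_separableSpace
      (thickening (2 * r) K)).exists_countable_dense_subset
  set θ : ℕ → ℝ := fun k => r * (1 / 2) ^ k with hθ
  set c : ℝ≥0∞ := 2 ^ finrank ℝ V * (2 ^ finrank ℝ V * 2) with hc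
  have hct : c ≠ ∞ := ENNReal.mul_ne_top (ENNReal.pow_ne_top (by norm_num))
    (ENNReal.mul_ne_top (ENNReal.pow_ne_top (by norm_num)) (by norm_num))
  set W := ∫⁻ x in thickening η K, wave P ν g x ^ (p + 1) ∂μ with hW
  have hsm : ∀ k, Measurable (scale P ν g A₀ (θ k)) := fun k =>
    measurable_scale P ν hν g hg A₀ hA₀c (θ k)
  have hone : ∀ k, ∫⁻ e in closedBall (0 : V) r, scale P ν g A₀ (θ k) e ^ (p + 1) ∂μ ≤
      (14 * 8 ^ finrank ℝ V) ^ (p + 1) * W := by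
    intro k
    refine one_scale P μ ν hν hν1 g hg K η r (θ k) hr hη (by positivity) ?_ A₀ hA₀c hA₀s p
    calc r * (1 / 2 : ℝ) ^ k ≤ r * 1 := by
          gcongr
          exact pow_le_one₀ (by norm_num) (by norm_num)
      _ = r := mul_one r
  have hpt : ∀ e : sphere (0 : V) 1,
      (⨆ a : V, (μ (short 1 δ (e : V) a))⁻¹ * ∫⁻ y in short 1 δ (e : V) a, h y ∂μ) ^ (p + 1) ≤
        (c ^ (p + 1) * (N : ℝ≥0∞) ^ p) *
          ∑ k ∈ Finset.range N, scale P ν g A₀ (θ k) (r • (e : V)) ^ (p + 1) := by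
    intro e
    have he : ‖(e : V)‖ = 1 := mem_sphere_zero_iff_norm.1 e.2
    have h1 : (⨆ a : V, (μ (short 1 δ (e : V) a))⁻¹ * ∫⁻ y in short 1 δ (e : V) a, h y ∂μ) ≤
        c * ∑ k ∈ Finset.range N, scale P ν g A₀ (θ k) (r • (e : V)) := by
      refine iSup_le fun a => ?_
      refine (point P μ ν hν hν1 g hg K h hh hK hK0 r δ δ' hr hr1 hδ' hδ hδr N hN hN1 A₀ hA₀d
        (e : V) a he).trans (le_of_eq ?_)
      rw [hc]
      ring
    calc _ ≤ (c * ∑ k ∈ Finset.range N, scale P ν g A₀ (θ k) (r • (e : V))) ^ (p + 1) := by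
          gcongr
      _ = c ^ (p + 1) * (∑ k ∈ Finset.range N, scale P ν g A₀ (θ k) (r • (e : V))) ^ (p + 1) :=
          mul_pow _ _ _
      _ ≤ c ^ (p + 1) * ((N : ℝ≥0∞) ^ p *
            ∑ k ∈ Finset.range N, scale P ν g A₀ (θ k) (r • (e : V)) ^ (p + 1)) := by
          gcongr
          exact pow_sum_range N p _
      _ = _ := by ring
  have hint : ∫⁻ e : sphere (0 : V) 1,
        (⨆ a : V, (μ (short 1 δ (e : V) a))⁻¹ * ∫⁻ y in short 1 δ (e : V) a, h y ∂μ) ^ (p + 1)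
          ∂μ.toSphere ≤
      (c ^ (p + 1) * (N : ℝ≥0∞) ^ p) * ∑ k ∈ Finset.range N,
        ∫⁻ e : sphere (0 : V) 1, scale P ν g A₀ (θ k) (r • (e : V)) ^ (p + 1) ∂μ.toSphere := by
    have hm : ∀ k ∈ Finset.range N, Measurable fun e : sphere (0 : V) 1 =>
        scale P ν g A₀ (θ k) (r • (e : V)) ^ (p + 1) := fun k _ =>
      ((hsm k).comp (by fun_prop)).pow_const _
    rw [← lintegral_finsetSum _ hm, ← lintegral_const_mul' _ _
      (ENNReal.mul_ne_top (ENNReal.pow_ne_top hct) (ENNReal.pow_ne_top (ENNReal.natCast_ne_top N)))]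
    exact lintegral_mono hpt
  have hpol : ∀ k, ENNReal.ofReal (r ^ finrank ℝ V) * ∫⁻ e : sphere (0 : V) 1,
        scale P ν g A₀ (θ k) (r • (e : V)) ^ (p + 1) ∂μ.toSphere ≤
      finrank ℝ V * ((14 * 8 ^ finrank ℝ V) ^ (p + 1) * W) := by
    intro k
    refine (sphere_le_ball μ (fun x => scale P ν g A₀ (θ k) x ^ (p + 1)) ((hsm k).pow_const _)
      ?_ r hr).trans (mul_le_mul' le_rfl (hone k))
    intro t x ht ht1
    have := scale_mono P ν g A₀ (θ k) t x ht ht1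
    gcongr
  calc _ ≤ ENNReal.ofReal (r ^ finrank ℝ V) * ((c ^ (p + 1) * (N : ℝ≥0∞) ^ p) *
          ∑ k ∈ Finset.range N, ∫⁻ e : sphere (0 : V) 1,
            scale P ν g A₀ (θ k) (r • (e : V)) ^ (p + 1) ∂μ.toSphere) :=
        mul_le_mul' le_rfl hint
    _ = (c ^ (p + 1) * (N : ℝ≥0∞) ^ p) * ∑ k ∈ Finset.range N,
          (ENNReal.ofReal (r ^ finrank ℝ V) * ∫⁻ e : sphere (0 : V) 1,
            scale P ν g A₀ (θ k) (r • (e : V)) ^ (p + 1) ∂μ.toSphere) := by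
        rw [← Finset.mul_sum]
        ring
    _ ≤ (c ^ (p + 1) * (N : ℝ≥0∞) ^ p) * ∑ _k ∈ Finset.range N,
          (finrank ℝ V * ((14 * 8 ^ finrank ℝ V) ^ (p + 1) * W)) :=
        mul_le_mul' le_rfl (Finset.sum_le_sum fun k _ => hpol k)
    _ = _ := by
        rw [Finset.sum_const, Finset.card_range, nsmul_eq_mul, mul_pow (c * N), mul_pow c N]
        generalize (14 * 8 ^ finrank ℝ V : ℝ≥0∞) ^ (p + 1) = X
        generalize c ^ (p + 1) = Y
        ring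

end Pool.Agent.H5.PW
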