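import Mathlib

open MeasureTheory Metric Set
open scoped ENNReal NNReal Pointwise

namespace Pool.Agent.H5.PW

variable {V : Type*} [NormedAddCommGroup V] [InnerProductSpace ℝ V] [FiniteDimensional ℝ V]
  [MeasurableSpace V] [BorelSpace V]

/-- Window averages: `θ⁻¹` times the integral of `g (ω, ·)` over the interval of radius `c θ`
about `⟨x, ν ω⟩`. -/
noncomputable def win {Ω : Type*} (ν : Ω → V) (g : Ω × ℝ → ℝ≥0∞) (θ c : ℝ) (z : V × Ω) : ℝ≥0∞ :=
  ENNReal.ofReal θ⁻¹ * ∫⁻ s in closedBall (inner ℝ z.1 (ν z.2) : ℝ) (c * θ), g (z.2, s)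

omit [FiniteDimensional ℝ V] in
theorem measurable_win [SecondCountableTopology V] {Ω : Type*} [MeasurableSpace Ω] (ν : Ω → V)
    (hν : Measurable ν) (g : Ω × ℝ → ℝ≥0∞) (hg : Measurable g) (θ c : ℝ) :
    Measurable (win ν g θ c) := by
  have h1 : win ν g θ c = fun z : V × Ω => ENNReal.ofReal θ⁻¹ *
      ∫⁻ s, {q : (V × Ω) × ℝ | |q.2 - inner ℝ q.1.1 (ν q.1.2)| ≤ c * θ}.indicator
        (fun q => g (q.1.2, q.2)) (z, s) := by
    funext z
    unfold win
    congr 1
    rw [← lintegral_indicator measurableSet_closedBall]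
    refine lintegral_congr fun s => ?_
    by_cases hs : |s - inner ℝ z.1 (ν z.2)| ≤ c * θ
    · rw [indicator_of_mem (by rw [mem_closedBall, Real.dist_eq]; exact hs),
        indicator_of_mem (show (z, s) ∈ {q : (V × Ω) × ℝ |
          |q.2 - inner ℝ q.1.1 (ν q.1.2)| ≤ c * θ} from hs)]
    · rw [indicator_of_notMem (by rw [mem_closedBall, Real.dist_eq]; exact hs),
        indicator_of_notMem (show (z, s) ∉ {q : (V × Ω) × ℝ |
          |q.2 - inner ℝ q.1.1 (ν q.1.2)| ≤ c * θ} from hs)]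
  rw [h1]
  refine Measurable.const_mul ?_ _
  refine Measurable.lintegral_prod_right' (f := {q : (V × Ω) × ℝ |
    |q.2 - inner ℝ q.1.1 (ν q.1.2)| ≤ c * θ}.indicator (fun q => g (q.1.2, q.2))) ?_
  refine Measurable.indicator ?_ ?_
  · exact hg.comp (by fun_prop)
  · have hin : Measurable fun q : (V × Ω) × ℝ => (inner ℝ q.1.1 (ν q.1.2) : ℝ) :=
      Measurable.inner (by fun_prop) (hν.comp (by fun_prop))
    exact measurableSet_le (by fun_prop) measurable_const

omit [FiniteDimensional ℝ V] [MeasurableSpace V] [BorelSpace V] in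
theorem win_mono {Ω : Type*} (ν : Ω → V) (g : Ω × ℝ → ℝ≥0∞) (θ c c' : ℝ)
    (x y : V) (ω : Ω) (h : |inner ℝ (y - x) (ν ω)| ≤ (c' - c) * θ) :
    win ν g θ c (x, ω) ≤ win ν g θ c' (y, ω) := by
  unfold win
  refine mul_le_mul' le_rfl (lintegral_mono_set ?_)
  intro s hs
  rw [mem_closedBall, Real.dist_eq] at hs ⊢
  calc |s - inner ℝ y (ν ω)| = |(s - inner ℝ x (ν ω)) - inner ℝ (y - x) (ν ω)| := by
        rw [inner_sub_left]
        ring_nf
    _ ≤ |s - inner ℝ x (ν ω)| + |inner ℝ (y - x) (ν ω)| := abs_sub _ _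
    _ ≤ c * θ + (c' - c) * θ := add_le_add hs h
    _ = c' * θ := by ring

/-- The window average of a plane wave is bounded by its average over a ball. -/
theorem win_le_ball (μ : Measure V) [μ.IsAddHaarMeasure] (ν : V) (hν : ‖ν‖ = 1) (θ : ℝ)
    (hθ : 0 < θ) (x : V) (g : ℝ → ℝ≥0∞) (hg : Measurable g) :
    ENNReal.ofReal θ⁻¹ * ∫⁻ s in closedBall (inner ℝ x ν : ℝ) (6 * θ), g s ≤
      14 * 8 ^ Module.finrank ℝ V *
        ((μ (closedBall x (8 * θ)))⁻¹ * ∫⁻ y in closedBall x (8 * θ), g (inner ℝ y ν) ∂μ) := by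
  set J := ∫⁻ s in closedBall (inner ℝ x ν : ℝ) (6 * θ), g s with hJ
  set I := ∫⁻ y in closedBall x (8 * θ), g (inner ℝ y ν) ∂μ with hI
  set T : Set ℝ := closedBall 0 (7 * θ) with hT
  have hTm : MeasurableSet T := measurableSet_closedBall
  have hvT : volume T = ENNReal.ofReal (14 * θ) := by
    rw [hT, Real.volume_closedBall]
    ring_nf
  set B : Set V := closedBall 0 θ with hB
  have hBm : MeasurableSet B := measurableSet_closedBall
  have hnn : inner ℝ ν ν = (1 : ℝ) := by rw [real_inner_self_eq_norm_sq, hν]; norm_num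
  have hmain : μ B * J ≤ ENNReal.ofReal (14 * θ) * I := by
    calc μ B * J = ∫⁻ _z in B, J ∂μ := by rw [setLIntegral_const, mul_comm]
      _ ≤ ∫⁻ z in B, (∫⁻ t in T, g (inner ℝ (x + t • ν + z) ν)) ∂μ := by
          refine setLIntegral_mono' hBm fun z hz => ?_
          have hz1 : |inner ℝ z ν| ≤ θ := by
            refine (abs_real_inner_le_norm _ _).trans ?_
            rw [hν, mul_one]
            rw [hB, mem_closedBall, dist_zero_right] at hz
            exact hz
          rw [hJ, ← lintegral_indicator measurableSet_closedBall, ← lintegral_indicator hTm,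
            ← lintegral_add_right_eq_self _ (inner ℝ x ν + inner ℝ z ν : ℝ)]
          refine lintegral_mono fun t => ?_
          by_cases ht : t + (inner ℝ x ν + inner ℝ z ν) ∈ closedBall (inner ℝ x ν : ℝ) (6 * θ)
          · have htT : t ∈ T := by
              rw [hT, mem_closedBall, dist_zero_right, Real.norm_eq_abs]
              rw [mem_closedBall, Real.dist_eq] at ht
              calc |t| = |(t + (inner ℝ x ν + inner ℝ z ν) - inner ℝ x ν) - inner ℝ z ν| := by
                    ring_nf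
                _ ≤ |t + (inner ℝ x ν + inner ℝ z ν) - inner ℝ x ν| + |inner ℝ z ν| := abs_sub _ _
                _ ≤ 6 * θ + θ := add_le_add ht hz1
                _ = 7 * θ := by ring
            rw [indicator_of_mem ht, indicator_of_mem htT, inner_add_left, inner_add_left,
              inner_smul_left, hnn]
            simp only [conj_trivial, mul_one]
            refine le_of_eq ?_
            congr 1
            ring
          · rw [indicator_of_notMem ht]
            exact zero_le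
      _ = ∫⁻ t in T, (∫⁻ z in B, g (inner ℝ (x + t • ν + z) ν) ∂μ) := by
          refine lintegral_lintegral_swap ?_
          refine Measurable.aemeasurable ?_
          exact hg.comp (by fun_prop)
      _ ≤ ∫⁻ _t in T, I := by
          refine setLIntegral_mono' hTm fun t ht => ?_
          rw [hT, mem_closedBall, dist_zero_right, Real.norm_eq_abs] at ht
          rw [hI, ← lintegral_indicator hBm, ← lintegral_indicator measurableSet_closedBall,
            ← lintegral_add_left_eq_self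
              ((closedBall x (8 * θ)).indicator fun y => g (inner ℝ y ν)) (x + t • ν)]
          refine lintegral_mono fun z => ?_
          by_cases hz : z ∈ B
          · have hmem : x + t • ν + z ∈ closedBall x (8 * θ) := by
              rw [hB, mem_closedBall, dist_zero_right] at hz
              rw [mem_closedBall, dist_eq_norm]
              calc ‖x + t • ν + z - x‖ = ‖t • ν + z‖ := by congr 1; abel
                _ ≤ ‖t • ν‖ + ‖z‖ := norm_add_le _ _
                _ ≤ 7 * θ + θ := by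
                    rw [norm_smul, hν, mul_one, Real.norm_eq_abs]
                    exact add_le_add ht hz
                _ = 8 * θ := by ring
            rw [indicator_of_mem hz, indicator_of_mem hmem]
          · rw [indicator_of_notMem hz]
            exact zero_le
      _ = ENNReal.ofReal (14 * θ) * I := by
          rw [setLIntegral_const, hvT, mul_comm]
  have hB0 : μ B ≠ 0 := (measure_closedBall_pos μ _ hθ).ne'
  have hBt : μ B ≠ ∞ := measure_closedBall_lt_top.ne
  have hvol : μ (closedBall x (8 * θ)) = 8 ^ Module.finrank ℝ V * μ B := by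
    rw [Measure.addHaar_closedBall_mul μ x (by norm_num) hθ.le, hB,
      ENNReal.ofReal_pow (by norm_num)]
    norm_num
  have hJ2 : J ≤ (μ B)⁻¹ * (ENNReal.ofReal (14 * θ) * I) := by
    rw [← ENNReal.div_eq_inv_mul, ENNReal.le_div_iff_mul_le (Or.inl hB0) (Or.inl hBt), mul_comm]
    exact hmain
  calc ENNReal.ofReal θ⁻¹ * J
      ≤ ENNReal.ofReal θ⁻¹ * ((μ B)⁻¹ * (ENNReal.ofReal (14 * θ) * I)) := by gcongr
    _ = (ENNReal.ofReal θ⁻¹ * ENNReal.ofReal (14 * θ)) * ((μ B)⁻¹ * I) := by ring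
    _ = 14 * ((μ B)⁻¹ * I) := by
        rw [← ENNReal.ofReal_mul (by positivity)]
        rw [show θ⁻¹ * (14 * θ) = 14 by field_simp]
        norm_num
    _ = 14 * 8 ^ Module.finrank ℝ V * ((μ (closedBall x (8 * θ)))⁻¹ * I) := by
        rw [hvol, ENNReal.mul_inv (Or.inr hBt) (Or.inr hB0)]
        have h8 : (8 : ℝ≥0∞) ^ Module.finrank ℝ V * ((8 : ℝ≥0∞) ^ Module.finrank ℝ V)⁻¹ = 1 :=
          ENNReal.mul_inv_cancel (pow_ne_zero _ (by norm_num)) (ENNReal.pow_ne_top (by norm_num))
        calc 14 * ((μ B)⁻¹ * I) = 14 * (((8 : ℝ≥0∞) ^ Module.finrank ℝ V *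
              ((8 : ℝ≥0∞) ^ Module.finrank ℝ V)⁻¹) * ((μ B)⁻¹ * I)) := by rw [h8, one_mul]
          _ = _ := by ring

/-- Chebyshev's inequality for the powers of one function. -/
theorem cheb {X : Type*} [MeasurableSpace X] (κ : Measure X) [SFinite κ] (F : X → ℝ≥0∞)
    (hF : Measurable F) (p : ℕ) :
    (∫⁻ x, F x ∂κ) * ∫⁻ x, F x ^ p ∂κ ≤ κ univ * ∫⁻ x, F x ^ (p + 1) ∂κ := by
  have key : ∀ a b : ℝ≥0∞, a ≤ b → a * b ^ p + b * a ^ p ≤ a ^ (p + 1) + b ^ (p + 1) := by
    intro a b hab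
    obtain ⟨c, rfl⟩ := exists_add_of_le hab
    have h1 : c * a ^ p ≤ c * (a + c) ^ p := by gcongr
    calc a * (a + c) ^ p + (a + c) * a ^ p
        = (a * (a + c) ^ p + a ^ (p + 1)) + c * a ^ p := by ring
      _ ≤ (a * (a + c) ^ p + a ^ (p + 1)) + c * (a + c) ^ p := by gcongr
      _ = a ^ (p + 1) + (a + c) ^ (p + 1) := by ring
  have key2 : ∀ a b : ℝ≥0∞, a * b ^ p + b * a ^ p ≤ a ^ (p + 1) + b ^ (p + 1) := by
    intro a b
    rcases le_total a b with h | h
    · exact key a b h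
    · have := key b a h
      rw [add_comm (a * b ^ p), add_comm (a ^ (p + 1))]
      exact this
  have hFp : ∀ q : ℕ, Measurable fun x => F x ^ q := fun q => hF.pow_const q
  have h2 : ∫⁻ x, ∫⁻ y, (F x * F y ^ p + F y * F x ^ p) ∂κ ∂κ ≤
      ∫⁻ x, ∫⁻ y, (F x ^ (p + 1) + F y ^ (p + 1)) ∂κ ∂κ :=
    lintegral_mono fun x => lintegral_mono fun y => key2 _ _
  have h3 : ∫⁻ x, ∫⁻ y, (F x * F y ^ p + F y * F x ^ p) ∂κ ∂κ =
      2 * ((∫⁻ x, F x ∂κ) * ∫⁻ x, F x ^ p ∂κ) := by
    have : ∀ x, ∫⁻ y, (F x * F y ^ p + F y * F x ^ p) ∂κ =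
        F x * (∫⁻ y, F y ^ p ∂κ) + (∫⁻ y, F y ∂κ) * F x ^ p := by
      intro x
      rw [lintegral_add_left ((hFp p).const_mul _), lintegral_const_mul _ (hFp p),
        lintegral_mul_const _ hF]
    rw [lintegral_congr this, lintegral_add_left (hF.mul_const _), lintegral_mul_const _ hF,
      lintegral_const_mul _ (hFp p)]
    ring
  have h4 : ∫⁻ x, ∫⁻ y, (F x ^ (p + 1) + F y ^ (p + 1)) ∂κ ∂κ =
      2 * (κ univ * ∫⁻ x, F x ^ (p + 1) ∂κ) := by
    have : ∀ x, ∫⁻ y, (F x ^ (p + 1) + F y ^ (p + 1)) ∂κ =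
        F x ^ (p + 1) * κ univ + ∫⁻ y, F y ^ (p + 1) ∂κ := by
      intro x
      rw [lintegral_add_left measurable_const, lintegral_const]
    rw [lintegral_congr this, lintegral_add_left ((hFp _).mul_const _),
      lintegral_mul_const _ (hFp _), lintegral_const]
    ring
  rw [h3, h4] at h2
  exact (ENNReal.mul_le_mul_iff_right (by norm_num) (by norm_num)).1 h2

theorem pow_lint {X : Type*} [MeasurableSpace X] (κ : Measure X) [SFinite κ] (F : X → ℝ≥0∞)
    (hF : Measurable F) (p : ℕ) :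
    (∫⁻ x, F x ∂κ) ^ (p + 1) ≤ κ univ ^ p * ∫⁻ x, F x ^ (p + 1) ∂κ := by
  induction p with
  | zero => simp
  | succ p ih =>
    calc (∫⁻ x, F x ∂κ) ^ (p + 1 + 1) = (∫⁻ x, F x ∂κ) * (∫⁻ x, F x ∂κ) ^ (p + 1) := by ring
      _ ≤ (∫⁻ x, F x ∂κ) * (κ univ ^ p * ∫⁻ x, F x ^ (p + 1) ∂κ) := by gcongr
      _ = κ univ ^ p * ((∫⁻ x, F x ∂κ) * ∫⁻ x, F x ^ (p + 1) ∂κ) := by ring
      _ ≤ κ univ ^ p * (κ univ * ∫⁻ x, F x ^ (p + 1 + 1) ∂κ) := by
          exact mul_le_mul' le_rfl (cheb κ F hF (p + 1))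
      _ = κ univ ^ (p + 1) * ∫⁻ x, F x ^ (p + 1 + 1) ∂κ := by ring

/-- The `L^p` bound for averages over balls. -/
theorem avg_ball (μ : Measure V) [μ.IsAddHaarMeasure] (ρ : ℝ) (hρ : 0 < ρ) (F : V → ℝ≥0∞)
    (hF : Measurable F) (A A' : Set V) (hA : MeasurableSet A) (hA' : MeasurableSet A')
    (h : ∀ x ∈ A, ∀ y, ‖y - x‖ ≤ ρ → y ∈ A') (p : ℕ) :
    ∫⁻ x in A, ((μ (closedBall x ρ))⁻¹ * ∫⁻ y in closedBall x ρ, F y ∂μ) ^ (p + 1) ∂μ ≤
      ∫⁻ y in A', F y ^ (p + 1) ∂μ := by
  set B : Set V := closedBall 0 ρ with hB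
  have hBm : MeasurableSet B := measurableSet_closedBall
  have hB0 : μ B ≠ 0 := (measure_closedBall_pos μ _ hρ).ne'
  have hBt : μ B ≠ ∞ := measure_closedBall_lt_top.ne
  have hvol : ∀ x, μ (closedBall x ρ) = μ B := fun x => Measure.addHaar_closedBall_center μ x ρ
  have hint : ∀ (G : V → ℝ≥0∞) (x : V), ∫⁻ y in closedBall x ρ, G y ∂μ =
      ∫⁻ z in B, G (x + z) ∂μ := by
    intro G x
    rw [← lintegral_indicator measurableSet_closedBall, ← lintegral_indicator hBm,
      ← lintegral_add_left_eq_self _ x]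
    refine lintegral_congr fun z => ?_
    by_cases hz : z ∈ B
    · rw [indicator_of_mem hz, indicator_of_mem]
      rw [hB, mem_closedBall, dist_zero_right] at hz
      rw [mem_closedBall, dist_eq_norm, add_sub_cancel_left]
      exact hz
    · rw [indicator_of_notMem hz, indicator_of_notMem]
      intro h2
      rw [mem_closedBall, dist_eq_norm, add_sub_cancel_left] at h2
      exact hz (by rw [hB, mem_closedBall, dist_zero_right]; exact h2)
  have hFp : Measurable fun y => F y ^ (p + 1) := hF.pow_const _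
  calc ∫⁻ x in A, ((μ (closedBall x ρ))⁻¹ * ∫⁻ y in closedBall x ρ, F y ∂μ) ^ (p + 1) ∂μ
      ≤ ∫⁻ x in A, (μ B)⁻¹ * ∫⁻ z in B, F (x + z) ^ (p + 1) ∂μ ∂μ := by
        refine lintegral_mono fun x => ?_
        rw [hvol, hint, mul_pow]
        have h1 := pow_lint (μ.restrict B) (fun z => F (x + z))
          (hF.comp (by fun_prop)) p
        rw [Measure.restrict_apply_univ] at h1
        calc (μ B)⁻¹ ^ (p + 1) * (∫⁻ z in B, F (x + z) ∂μ) ^ (p + 1)
            ≤ (μ B)⁻¹ ^ (p + 1) * (μ B ^ p * ∫⁻ z in B, F (x + z) ^ (p + 1) ∂μ) := by gcongr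
          _ = ((μ B)⁻¹ * μ B) ^ p * ((μ B)⁻¹ * ∫⁻ z in B, F (x + z) ^ (p + 1) ∂μ) := by ring
          _ = (μ B)⁻¹ * ∫⁻ z in B, F (x + z) ^ (p + 1) ∂μ := by
              rw [ENNReal.inv_mul_cancel hB0 hBt, one_pow, one_mul]
    _ = (μ B)⁻¹ * ∫⁻ x in A, ∫⁻ z in B, F (x + z) ^ (p + 1) ∂μ ∂μ := by
        rw [lintegral_const_mul]
        exact Measurable.lintegral_prod_right' (f := fun q : V × V => F (q.1 + q.2) ^ (p + 1))
          (hFp.comp (by fun_prop))
    _ = (μ B)⁻¹ * ∫⁻ z in B, ∫⁻ x in A, F (x + z) ^ (p + 1) ∂μ ∂μ := by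
        congr 1
        refine lintegral_lintegral_swap ?_
        exact Measurable.aemeasurable (hFp.comp (by fun_prop))
    _ ≤ (μ B)⁻¹ * ∫⁻ _z in B, ∫⁻ y in A', F y ^ (p + 1) ∂μ ∂μ := by
        refine mul_le_mul' le_rfl (setLIntegral_mono' hBm fun z hz => ?_)
        rw [← lintegral_indicator hA, ← lintegral_indicator hA',
          ← lintegral_add_right_eq_self (A'.indicator fun y => F y ^ (p + 1)) z]
        refine lintegral_mono fun x => ?_
        by_cases hx : x ∈ A
        · have : x + z ∈ A' := h x hx _ (by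
            rw [hB, mem_closedBall, dist_zero_right] at hz
            rw [add_sub_cancel_left]
            exact hz)
          rw [indicator_of_mem hx, indicator_of_mem this]
        · rw [indicator_of_notMem hx]
          exact zero_le
    _ = ∫⁻ y in A', F y ^ (p + 1) ∂μ := by
        rw [setLIntegral_const, mul_comm _ (μ B), ← mul_assoc, ENNReal.inv_mul_cancel hB0 hBt,
          one_mul]

end Pool.Agent.H5.PW
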