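import Pool.Agent.H5.PW.Core
import Pool.Agent.H5.PW.Win

open MeasureTheory Metric Set Module
open scoped ENNReal NNReal Pointwise

namespace Pool.Agent.H5.PW

variable {V : Type*} [NormedAddCommGroup V] [InnerProductSpace ℝ V] [FiniteDimensional ℝ V]
  [MeasurableSpace V] [BorelSpace V]

/-- The superposition of the plane waves `g (ω, ⟨x, ν ω⟩)`. -/
noncomputable def wave {Ω : Type*} [MeasurableSpace Ω] (P : Measure Ω) (ν : Ω → V)
    (g : Ω × ℝ → ℝ≥0∞) (x : V) : ℝ≥0∞ :=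
  ∫⁻ ω, g (ω, inner ℝ x (ν ω)) ∂P

/-- The pairs of a vector and an index with small inner product. -/
def near {Ω : Type*} (ν : Ω → V) (θ : ℝ) : Set (V × Ω) :=
  {z | |(inner ℝ z.1 (ν z.2) : ℝ)| ≤ θ}

/-- The contribution of one scale. -/
noncomputable def scale {Ω : Type*} [MeasurableSpace Ω] (P : Measure Ω) (ν : Ω → V)
    (g : Ω × ℝ → ℝ≥0∞) (A₀ : Set V) (θ : ℝ) (e : V) : ℝ≥0∞ :=
  ⨆ a ∈ A₀, ∫⁻ ω, (near ν θ).indicator (fun z => win ν g θ 5 (a, z.2)) (e, ω) ∂P

omit [FiniteDimensional ℝ V] in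
theorem measurableSet_near [SecondCountableTopology V] {Ω : Type*} [MeasurableSpace Ω]
    (ν : Ω → V) (hν : Measurable ν) (θ : ℝ) : MeasurableSet (near ν θ) := by
  have hin : Measurable fun q : V × Ω => |(inner ℝ q.1 (ν q.2) : ℝ)| :=
    (Measurable.inner (by fun_prop) (hν.comp (by fun_prop))).abs
  exact measurableSet_le hin measurable_const

theorem measurable_wave {Ω : Type*} [MeasurableSpace Ω] (P : Measure Ω) [SFinite P] (ν : Ω → V)
    (hν : Measurable ν) (g : Ω × ℝ → ℝ≥0∞) (hg : Measurable g) : Measurable (wave P ν g) := by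
  refine Measurable.lintegral_prod_right' (f := fun q : V × Ω => g (q.2, inner ℝ q.1 (ν q.2))) ?_
  refine hg.comp (Measurable.prodMk measurable_snd ?_)
  exact Measurable.inner (by fun_prop) (hν.comp (by fun_prop))

theorem measurable_scale {Ω : Type*} [MeasurableSpace Ω] (P : Measure Ω) [SFinite P] (ν : Ω → V)
    (hν : Measurable ν) (g : Ω × ℝ → ℝ≥0∞) (hg : Measurable g) (A₀ : Set V) (hA₀ : A₀.Countable)
    (θ : ℝ) : Measurable (scale P ν g A₀ θ) := by
  refine Measurable.biSup _ hA₀ fun a _ => ?_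
  refine Measurable.lintegral_prod_right'
    (f := (near ν θ).indicator (fun z : V × Ω => win ν g θ 5 (a, z.2))) ?_
  refine Measurable.indicator ?_ (measurableSet_near ν hν θ)
  exact (measurable_win ν hν g hg θ 5).comp (by fun_prop : Measurable fun z : V × Ω => (a, z.2))

omit [FiniteDimensional ℝ V] [BorelSpace V] [MeasurableSpace V] in
theorem scale_mono {Ω : Type*} [MeasurableSpace Ω] (P : Measure Ω) (ν : Ω → V)
    (g : Ω × ℝ → ℝ≥0∞) (A₀ : Set V) (θ t : ℝ) (e : V) (ht : 0 < t) (ht1 : t ≤ 1) :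
    scale P ν g A₀ θ e ≤ scale P ν g A₀ θ (t • e) := by
  unfold scale
  refine iSup₂_mono fun a _ => lintegral_mono fun ω => ?_
  by_cases h : (e, ω) ∈ near ν θ
  · have h2 : (t • e, ω) ∈ near ν θ := by
      simp only [near, mem_ofPred_eq] at h ⊢
      rw [inner_smul_left, abs_mul]
      simp only [conj_trivial]
      rw [abs_of_pos ht]
      calc t * |(inner ℝ e (ν ω) : ℝ)| ≤ 1 * |(inner ℝ e (ν ω) : ℝ)| := by gcongr
        _ ≤ θ := by rw [one_mul]; exact h
    rw [indicator_of_mem h, indicator_of_mem h2]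
  · rw [indicator_of_notMem h]
    exact zero_le

/-- The estimate for one scale. -/
theorem one_scale {Ω : Type*} [MeasurableSpace Ω] (P : Measure Ω) [SFinite P] (μ : Measure V)
    [μ.IsAddHaarMeasure] (ν : Ω → V) (hν : Measurable ν) (hν1 : ∀ ω, ‖ν ω‖ = 1)
    (g : Ω × ℝ → ℝ≥0∞) (hg : Measurable g) (K : Set V) (η r θ : ℝ) (hr : 0 < r)
    (hη : 12 * r ≤ η) (hθ : 0 < θ) (hθr : θ ≤ r) (A₀ : Set V) (hA₀ : A₀.Countable)
    (hA : A₀ ⊆ thickening (2 * r) K) (p : ℕ) :
    ∫⁻ e in closedBall (0 : V) r, scale P ν g A₀ θ e ^ (p + 1) ∂μ ≤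
      (14 * 8 ^ finrank ℝ V) ^ (p + 1) *
        ∫⁻ x in thickening η K, wave P ν g x ^ (p + 1) ∂μ := by
  have hsub : ∀ a ∈ A₀, ∀ e ∈ closedBall (0 : V) r, a + e ∈ thickening (3 * r) K := by
    intro a ha e he
    rw [mem_closedBall, dist_zero_right] at he
    obtain ⟨z, hz, hz2⟩ := mem_thickening_iff.1 (hA ha)
    refine mem_thickening_iff.2 ⟨z, hz, ?_⟩
    rw [dist_eq_norm] at hz2 ⊢
    calc ‖a + e - z‖ = ‖(a - z) + e‖ := by congr 1; abel
      _ ≤ ‖a - z‖ + ‖e‖ := norm_add_le _ _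
      _ < 3 * r := by linarith
  have hc := core P μ A₀ hA₀ (thickening (3 * r) K) isOpen_thickening.measurableSet
    (near ν θ) (measurableSet_near ν hν θ) (win ν g θ 5) (win ν g θ 6)
    (measurable_win ν hν g hg θ 5) (measurable_win ν hν g hg θ 6)
    (by
      intro a e ω heω
      refine win_mono ν g θ 5 6 a (a + e) ω ?_
      rw [add_sub_cancel_left]
      have : |(inner ℝ e (ν ω) : ℝ)| ≤ θ := heω
      linarith) (p + 1) (closedBall 0 r) measurableSet_closedBall hsub 1 1 measurable_one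
    (fun _ _ _ _ => le_rfl)
  have hlhs : ∫⁻ e in closedBall (0 : V) r, scale P ν g A₀ θ e ^ (p + 1) ∂μ ≤
      ∫⁻ e in closedBall (0 : V) r, ⨆ a ∈ A₀, (1 : V → ℝ≥0∞) a *
        (∫⁻ ω, (near ν θ).indicator (fun z => win ν g θ 5 (a, z.2)) (e, ω) ∂P) ^ (p + 1) ∂μ := by
    refine lintegral_mono fun e => ?_
    simp only [scale, Pi.one_apply, one_mul]
    rw [ENNReal.iSup₂_pow_of_ne_zero _ (by omega)]
  refine hlhs.trans (hc.trans ?_)
  have hF := measurable_wave P ν hν g hg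
  have hwin : ∀ x, ∫⁻ ω, win ν g θ 6 (x, ω) ∂P ≤ 14 * 8 ^ finrank ℝ V *
      ((μ (closedBall x (8 * θ)))⁻¹ * ∫⁻ y in closedBall x (8 * θ), wave P ν g y ∂μ) := by
    intro x
    have hgm : Measurable fun q : V × Ω => g (q.2, inner ℝ q.1 (ν q.2)) :=
      hg.comp (Measurable.prodMk measurable_snd
        (Measurable.inner (by fun_prop) (hν.comp (by fun_prop))))
    have hm : Measurable fun ω => ∫⁻ y in closedBall x (8 * θ), g (ω, inner ℝ y (ν ω)) ∂μ :=
      Measurable.lintegral_prod_left' (f := fun q : V × Ω => g (q.2, inner ℝ q.1 (ν q.2))) hgm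
    calc ∫⁻ ω, win ν g θ 6 (x, ω) ∂P
        ≤ ∫⁻ ω, 14 * 8 ^ finrank ℝ V * ((μ (closedBall x (8 * θ)))⁻¹ *
            ∫⁻ y in closedBall x (8 * θ), g (ω, inner ℝ y (ν ω)) ∂μ) ∂P := by
          refine lintegral_mono fun ω => ?_
          exact win_le_ball μ (ν ω) (hν1 ω) θ hθ x (fun s => g (ω, s))
            (hg.comp (by fun_prop))
      _ = 14 * 8 ^ finrank ℝ V * ((μ (closedBall x (8 * θ)))⁻¹ *
            ∫⁻ ω, ∫⁻ y in closedBall x (8 * θ), g (ω, inner ℝ y (ν ω)) ∂μ ∂P) := by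
          rw [lintegral_const_mul _ (hm.const_mul _), lintegral_const_mul _ hm]
      _ = _ := by
          congr 2
          exact lintegral_lintegral_swap (hgm.comp measurable_swap).aemeasurable
  calc ∫⁻ x in thickening (3 * r) K, (1 : V → ℝ≥0∞) x *
        (∫⁻ ω, win ν g θ 6 (x, ω) ∂P) ^ (p + 1) ∂μ
      ≤ ∫⁻ x in thickening (3 * r) K, (14 * 8 ^ finrank ℝ V) ^ (p + 1) *
          ((μ (closedBall x (8 * θ)))⁻¹ * ∫⁻ y in closedBall x (8 * θ), wave P ν g y ∂μ) ^
            (p + 1) ∂μ := by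
        refine lintegral_mono fun x => ?_
        rw [Pi.one_apply, one_mul, ← mul_pow]
        gcongr
        exact hwin x
    _ = (14 * 8 ^ finrank ℝ V) ^ (p + 1) * ∫⁻ x in thickening (3 * r) K,
          ((μ (closedBall x (8 * θ)))⁻¹ * ∫⁻ y in closedBall x (8 * θ), wave P ν g y ∂μ) ^
            (p + 1) ∂μ := by
        refine lintegral_const_mul' _ _ (ENNReal.pow_ne_top (ENNReal.mul_ne_top (by norm_num)
          (ENNReal.pow_ne_top (by norm_num))))
    _ ≤ _ := by
        refine mul_le_mul' le_rfl ?_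
        refine avg_ball μ (8 * θ) (by positivity) (wave P ν g) hF (thickening (3 * r) K)
          (thickening η K) isOpen_thickening.measurableSet isOpen_thickening.measurableSet ?_ p
        intro x hx y hy
        obtain ⟨z, hz, hz2⟩ := mem_thickening_iff.1 hx
        refine mem_thickening_iff.2 ⟨z, hz, ?_⟩
        rw [dist_eq_norm] at hz2 ⊢
        calc ‖y - z‖ = ‖(y - x) + (x - z)‖ := by congr 1; abel
          _ ≤ ‖y - x‖ + ‖x - z‖ := norm_add_le _ _
          _ < η := by linarith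

end Pool.Agent.H5.PW
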