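import Pool.Agent.H5.PW.One
import Pool.Agent.H5.PW.Avg

open MeasureTheory Metric Set Module
open scoped ENNReal NNReal Pointwise

namespace Pool.Agent.H5.PW

variable {V : Type*} [NormedAddCommGroup V] [InnerProductSpace ℝ V] [FiniteDimensional ℝ V]
  [MeasurableSpace V] [BorelSpace V]

theorem exists_dyadic (r m δ : ℝ) (N : ℕ) (hN : r * (1 / 2) ^ N < δ) (hm : δ ≤ m) (hmr : m ≤ r)
    (hN1 : 1 ≤ N) : ∃ k < N, r * (1 / 2) ^ (k + 1) < m ∧ m ≤ r * (1 / 2) ^ k := by
  have hex : ∃ k, r * (1 / 2) ^ (k + 1) < m :=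
    ⟨N - 1, by rw [Nat.sub_add_cancel hN1]; exact hN.trans_le hm⟩
  refine ⟨Nat.find hex, ?_, Nat.find_spec hex, ?_⟩
  · have : Nat.find hex ≤ N - 1 :=
      Nat.find_min' hex (by rw [Nat.sub_add_cancel hN1]; exact hN.trans_le hm)
    omega
  · rcases Nat.eq_zero_or_pos (Nat.find hex) with h0 | h0
    · rw [h0]
      simpa using hmr
    · have h1 := Nat.find_min hex (m := Nat.find hex - 1) (by omega)
      rw [Nat.sub_add_cancel h0, not_lt] at h1
      exact h1

/-- The pointwise bound for the averages over tubes by the contributions of the scales. -/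
theorem point {Ω : Type*} [MeasurableSpace Ω] (P : Measure Ω) [SFinite P] (μ : Measure V)
    [μ.IsAddHaarMeasure] (ν : Ω → V) (hν : Measurable ν) (hν1 : ∀ ω, ‖ν ω‖ = 1)
    (g : Ω × ℝ → ℝ≥0∞) (hg : Measurable g) (K : Set V) (h : V → ℝ≥0∞) (hh : AEMeasurable h μ)
    (hK : ∀ x ∈ K, h x ≤ wave P ν g x) (hK0 : ∀ x ∉ K, h x = 0) (r δ δ' : ℝ) (hr : 0 < r)
    (hr1 : r ≤ 1) (hδ' : 0 < δ') (hδ : δ' ≤ δ) (hδr : δ' ≤ r) (N : ℕ)
    (hN : r * (1 / 2) ^ N < δ') (hN1 : 1 ≤ N) (A₀ : Set V)
    (hA : thickening (2 * r) K ⊆ closure A₀) (e a : V) (he : ‖e‖ = 1) :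
    (μ (short 1 δ e a))⁻¹ * ∫⁻ y in short 1 δ e a, h y ∂μ ≤
      2 ^ finrank ℝ V * (2 ^ finrank ℝ V * (2 *
        ∑ k ∈ Finset.range N, scale P ν g A₀ (r * (1 / 2) ^ k) (r • e))) := by
  set θ : ℕ → ℝ := fun k => r * (1 / 2) ^ k with hθ
  have hθ0 : ∀ k, 0 < θ k := fun k => by positivity
  set Tot := ∑ k ∈ Finset.range N, scale P ν g A₀ (θ k) (r • e) with hTot
  refine avg_short μ h hh e a he δ δ' r hδ' hδ hr hr1 _ fun b => ?_
  set Q := short r δ' e b with hQ
  have hQm : MeasurableSet Q := measurableSet_short _ _ _ _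
  by_cases hb : (Q ∩ K).Nonempty
  · obtain ⟨z, hzQ, hzK⟩ := hb
    have hbK : b ∈ thickening (2 * r) K := by
      refine mem_thickening_iff.2 ⟨z, hzK, ?_⟩
      rw [dist_comm, dist_eq_norm]
      have := short_norm r δ' e b z he hzQ
      linarith
    obtain ⟨a₀, ha₀, hab⟩ := Metric.mem_closure_iff.1 (hA hbK) δ' hδ'
    rw [dist_eq_norm] at hab
    have hgm : Measurable fun q : V × Ω => g (q.2, inner ℝ q.1 (ν q.2)) :=
      hg.comp (Measurable.prodMk measurable_snd
        (Measurable.inner (by fun_prop) (hν.comp (by fun_prop))))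
    have hpt : ∀ ω, ENNReal.ofReal (max (r * |(inner ℝ e (ν ω) : ℝ)|) δ')⁻¹ *
        ∫⁻ s in closedBall (inner ℝ b (ν ω) : ℝ) (4 * max (r * |(inner ℝ e (ν ω) : ℝ)|) δ'),
          g (ω, s) ≤
        2 * ∑ k ∈ Finset.range N,
          (near ν (θ k)).indicator (fun z => win ν g (θ k) 5 (a₀, z.2)) (r • e, ω) := by
      intro ω
      set m := max (r * |(inner ℝ e (ν ω) : ℝ)|) δ' with hm
      have hm0 : 0 < m := lt_max_of_lt_right hδ'
      have heν : |(inner ℝ e (ν ω) : ℝ)| ≤ 1 := by
        have := abs_real_inner_le_norm e (ν ω)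
        rwa [he, hν1, mul_one] at this
      have hmr : m ≤ r := max_le (by nlinarith) hδr
      obtain ⟨k, hk, hk1, hk2⟩ := exists_dyadic r m δ' N hN (le_max_right _ _) hmr hN1
      have hmem : (r • e, ω) ∈ near ν (θ k) := by
        simp only [near, mem_ofPred_eq]
        rw [inner_smul_left, abs_mul]
        simp only [conj_trivial]
        rw [abs_of_pos hr]
        exact (le_max_left _ _).trans hk2
      have hδk : δ' ≤ θ k := (le_max_right _ _).trans hk2
      calc ENNReal.ofReal m⁻¹ * ∫⁻ s in closedBall (inner ℝ b (ν ω) : ℝ) (4 * m), g (ω, s)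
          ≤ (2 * ENNReal.ofReal (θ k)⁻¹) *
              ∫⁻ s in closedBall (inner ℝ a₀ (ν ω) : ℝ) (5 * θ k), g (ω, s) := by
            refine mul_le_mul' ?_ (lintegral_mono_set ?_)
            · rw [← ENNReal.ofReal_ofNat 2, ← ENNReal.ofReal_mul (by norm_num)]
              refine ENNReal.ofReal_le_ofReal ?_
              have h2 : θ k < 2 * m := by
                have : r * (1 / 2) ^ (k + 1) = θ k / 2 := by
                  rw [hθ]
                  ring
                linarith
              rw [inv_le_iff_one_le_mul₀ hm0]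
              have h3 : 0 < θ k := hθ0 k
              rw [show (2 : ℝ) * (θ k)⁻¹ * m = (2 * m) / θ k by field_simp]
              rw [one_le_div h3]
              exact h2.le
            · intro s hs
              rw [mem_closedBall, Real.dist_eq] at hs ⊢
              have h3 : |(inner ℝ b (ν ω) : ℝ) - inner ℝ a₀ (ν ω)| ≤ δ' := by
                rw [← inner_sub_left]
                refine (abs_real_inner_le_norm _ _).trans ?_
                rw [hν1, mul_one]
                exact hab.le
              calc |s - inner ℝ a₀ (ν ω)|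
                  = |(s - inner ℝ b (ν ω)) + (inner ℝ b (ν ω) - inner ℝ a₀ (ν ω))| := by ring_nf
                _ ≤ |s - inner ℝ b (ν ω)| + |(inner ℝ b (ν ω) : ℝ) - inner ℝ a₀ (ν ω)| :=
                    abs_add_le _ _
                _ ≤ 4 * m + δ' := add_le_add hs h3
                _ ≤ 5 * θ k := by
                    have : m ≤ θ k := hk2
                    linarith
        _ = 2 * (near ν (θ k)).indicator (fun z => win ν g (θ k) 5 (a₀, z.2)) (r • e, ω) := by
            rw [indicator_of_mem hmem, mul_assoc]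
            rfl
        _ ≤ 2 * ∑ k ∈ Finset.range N,
              (near ν (θ k)).indicator (fun z => win ν g (θ k) 5 (a₀, z.2)) (r • e, ω) := by
            refine mul_le_mul' le_rfl ?_
            exact Finset.single_le_sum (f := fun k =>
              (near ν (θ k)).indicator (fun z => win ν g (θ k) 5 (a₀, z.2)) (r • e, ω))
              (fun _ _ => zero_le) (Finset.mem_range.2 hk)
    have hsum : ∫⁻ ω, 2 * ∑ k ∈ Finset.range N,
          (near ν (θ k)).indicator (fun z => win ν g (θ k) 5 (a₀, z.2)) (r • e, ω) ∂P ≤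
        2 * Tot := by
      have hmk : ∀ k ∈ Finset.range N, Measurable fun ω =>
          (near ν (θ k)).indicator (fun z => win ν g (θ k) 5 (a₀, z.2)) (r • e, ω) := by
        intro k _
        exact (((measurable_win ν hν g hg (θ k) 5).comp
          (by fun_prop : Measurable fun z : V × Ω => (a₀, z.2))).indicator
          (measurableSet_near ν hν (θ k))).comp (by fun_prop : Measurable fun ω => (r • e, ω))
      rw [lintegral_const_mul' _ _ (by norm_num), lintegral_finset_sum _ hmk]
      refine mul_le_mul' le_rfl (Finset.sum_le_sum fun k _ => ?_)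
      exact le_iSup₂ (f := fun a (_ : a ∈ A₀) =>
        ∫⁻ ω, (near ν (θ k)).indicator (fun z => win ν g (θ k) 5 (a, z.2)) (r • e, ω) ∂P) a₀ ha₀
    have hint : ∫⁻ y in Q, h y ∂μ ≤ μ (short (2 * r) (2 * δ') e b) * (2 * Tot) := by
      calc ∫⁻ y in Q, h y ∂μ ≤ ∫⁻ y in Q, wave P ν g y ∂μ := by
            refine lintegral_mono fun y => ?_
            by_cases hy : y ∈ K
            · exact hK y hy
            · rw [hK0 y hy]
              exact zero_le
        _ = ∫⁻ ω, ∫⁻ y in Q, g (ω, inner ℝ y (ν ω)) ∂μ ∂P :=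
            lintegral_lintegral_swap hgm.aemeasurable
        _ ≤ ∫⁻ ω, μ (short (2 * r) (2 * δ') e b) * (2 * ∑ k ∈ Finset.range N,
              (near ν (θ k)).indicator (fun z => win ν g (θ k) 5 (a₀, z.2)) (r • e, ω)) ∂P := by
            refine lintegral_mono fun ω => ?_
            refine (tube_int μ e (ν ω) he (hν1 ω) r δ' hδ' hδr b (fun s => g (ω, s))
              (hg.comp (by fun_prop))).trans ?_
            exact mul_le_mul' le_rfl (hpt ω)
        _ = μ (short (2 * r) (2 * δ') e b) * ∫⁻ ω, (2 * ∑ k ∈ Finset.range N,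
              (near ν (θ k)).indicator (fun z => win ν g (θ k) 5 (a₀, z.2)) (r • e, ω)) ∂P :=
            lintegral_const_mul' _ _ (short_ne_top μ _ _ e b he)
        _ ≤ _ := mul_le_mul' le_rfl hsum
    calc (μ Q)⁻¹ * ∫⁻ y in Q, h y ∂μ
        ≤ (μ Q)⁻¹ * ((2 ^ finrank ℝ V * μ Q) * (2 * Tot)) := by
          refine mul_le_mul' le_rfl (hint.trans ?_)
          exact mul_le_mul' (double_tube μ r δ' e b) le_rfl
      _ = ((μ Q)⁻¹ * μ Q) * (2 ^ finrank ℝ V * (2 * Tot)) := by ring
      _ ≤ 1 * (2 ^ finrank ℝ V * (2 * Tot)) := by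
          gcongr
          exact ENNReal.inv_mul_le_one _
      _ = _ := one_mul _
  · have h0 : ∫⁻ y in Q, h y ∂μ = 0 := by
      rw [← lintegral_indicator hQm]
      refine lintegral_eq_zero_of_ae_eq_zero (Filter.Eventually.of_forall fun y => ?_)
      by_cases hy : y ∈ Q
      · rw [indicator_of_mem hy]
        exact hK0 y fun hyK => hb ⟨y, hy, hyK⟩
      · rw [indicator_of_notMem hy]
        rfl
    rw [h0, mul_zero]
    exact zero_le

end Pool.Agent.H5.PW
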