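import Mathlib

open MeasureTheory Metric Set
open scoped ENNReal NNReal Pointwise

namespace Pool.Agent.H5.PW

variable {V : Type*} [NormedAddCommGroup V] [InnerProductSpace ℝ V] [FiniteDimensional ℝ V]
  [MeasurableSpace V] [BorelSpace V]

/-- The tube of length `r` and radius `δ` with axis direction `e` and centre `a`. -/
def short (r δ : ℝ) (e a : V) : Set V :=
  {y | |inner ℝ (y - a) e| ≤ r / 2 ∧ ‖(y - a) - (inner ℝ (y - a) e : ℝ) • e‖ ≤ δ}

omit [FiniteDimensional ℝ V] in
theorem measurableSet_short (r δ : ℝ) (e a : V) : MeasurableSet (short r δ e a) := by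
  have h1 : IsClosed {y : V | |inner ℝ (y - a) e| ≤ r / 2} :=
    isClosed_le (by fun_prop) continuous_const
  have h2 : IsClosed {y : V | ‖(y - a) - (inner ℝ (y - a) e : ℝ) • e‖ ≤ δ} :=
    isClosed_le (by fun_prop) continuous_const
  exact (h1.inter h2).measurableSet

theorem lint_affine (G : ℝ → ℝ≥0∞) (hG : Measurable G) (c b : ℝ) (hb : b ≠ 0) :
    ∫⁻ t, G (c - t * b) = ENNReal.ofReal |b⁻¹| * ∫⁻ s, G s := by
  have h1 : ∫⁻ s, G s = ∫⁻ s, G (c - s) := (lintegral_sub_left_eq_self G c).symm
  have hm : Measurable fun s => G (c - s) := hG.comp (by fun_prop)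
  have h2 : ∫⁻ s, G (c - s) ∂(Measure.map (· * b) volume) = ∫⁻ t, G (c - t * b) :=
    lintegral_map hm (by fun_prop)
  rw [← h2, Real.map_volume_mul_right hb, lintegral_smul_measure, h1]
  rfl

omit [FiniteDimensional ℝ V] [MeasurableSpace V] [BorelSpace V] in
/-- The vector along which the tube is moved. -/
theorem exists_shift (e ν : V) (he : ‖e‖ = 1) (hν : ‖ν‖ = 1) (r δ : ℝ) (hδ : 0 < δ)
    (hδr : δ ≤ r) (a : V) :
    ∃ u : V, |inner ℝ u ν| = max (r * |inner ℝ e ν|) δ ∧
      ∀ t : ℝ, |t| ≤ 1 / 2 → ∀ y ∈ short r δ e a, y + t • u ∈ short (2 * r) (2 * δ) e a := by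
  have hr : 0 < r := hδ.trans_le hδr
  have hee : inner ℝ e e = (1 : ℝ) := by rw [real_inner_self_eq_norm_sq, he]; norm_num
  have hnn : inner ℝ ν ν = (1 : ℝ) := by rw [real_inner_self_eq_norm_sq, hν]; norm_num
  rcases le_total δ (r * |inner ℝ e ν|) with h | h
  · refine ⟨r • e, ?_, ?_⟩
    · rw [max_eq_left h, inner_smul_left, abs_mul]
      simp [abs_of_pos hr]
    · intro t ht y hy
      obtain ⟨hy1, hy2⟩ := hy
      have hin : inner ℝ (y + t • (r • e) - a) e = inner ℝ (y - a) e + t * r := by
        rw [show y + t • (r • e) - a = (y - a) + (t * r) • e by rw [smul_smul]; abel,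
          inner_add_left, inner_smul_left, hee]
        simp
      refine ⟨?_, ?_⟩
      · rw [hin]
        calc |inner ℝ (y - a) e + t * r| ≤ |inner ℝ (y - a) e| + |t * r| := abs_add_le _ _
          _ ≤ r / 2 + 1 / 2 * r := by
              rw [abs_mul, abs_of_pos hr]
              gcongr
          _ = 2 * r / 2 := by ring
      · rw [hin]
        have : y + t • (r • e) - a - (inner ℝ (y - a) e + t * r) • e =
            (y - a) - (inner ℝ (y - a) e : ℝ) • e := by
          rw [add_smul, smul_smul]
          abel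
        rw [this]
        linarith
  · refine ⟨δ • ν, ?_, ?_⟩
    · rw [max_eq_right h, inner_smul_left, hnn]
      simp [abs_of_pos hδ]
    · intro t ht y hy
      obtain ⟨hy1, hy2⟩ := hy
      have hin : inner ℝ (y + t • (δ • ν) - a) e = inner ℝ (y - a) e + t * δ * inner ℝ ν e := by
        rw [show y + t • (δ • ν) - a = (y - a) + (t * δ) • ν by rw [smul_smul]; abel,
          inner_add_left, inner_smul_left]
        simp
      have hne : |inner ℝ ν e| ≤ 1 := by
        have := abs_real_inner_le_norm ν e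
        rw [hν, he] at this
        simpa using this
      have htδ : |t * δ| ≤ 1 / 2 * δ := by
        rw [abs_mul, abs_of_pos hδ]
        gcongr
      refine ⟨?_, ?_⟩
      · rw [hin]
        calc |inner ℝ (y - a) e + t * δ * inner ℝ ν e|
            ≤ |inner ℝ (y - a) e| + |t * δ * inner ℝ ν e| := abs_add_le _ _
          _ ≤ r / 2 + 1 / 2 * δ * 1 := by
              rw [abs_mul (t * δ)]
              gcongr
          _ ≤ 2 * r / 2 := by linarith
      · rw [hin]
        have : y + t • (δ • ν) - a - (inner ℝ (y - a) e + t * δ * inner ℝ ν e) • e =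
            ((y - a) - (inner ℝ (y - a) e : ℝ) • e) + (t * δ) • (ν - (inner ℝ ν e : ℝ) • e) := by
          rw [add_smul, smul_sub, smul_smul, smul_smul]
          abel
        rw [this]
        have hproj : ‖ν - (inner ℝ ν e : ℝ) • e‖ ≤ 2 := by
          calc ‖ν - (inner ℝ ν e : ℝ) • e‖ ≤ ‖ν‖ + ‖(inner ℝ ν e : ℝ) • e‖ := norm_sub_le _ _
            _ ≤ 1 + 1 := by
                rw [norm_smul, hν, he, mul_one, Real.norm_eq_abs]
                gcongr
            _ = 2 := by norm_num
        calc ‖((y - a) - (inner ℝ (y - a) e : ℝ) • e) + (t * δ) • (ν - (inner ℝ ν e : ℝ) • e)‖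
            ≤ ‖(y - a) - (inner ℝ (y - a) e : ℝ) • e‖ +
              ‖(t * δ) • (ν - (inner ℝ ν e : ℝ) • e)‖ := norm_add_le _ _
          _ ≤ δ + (1 / 2 * δ) * 2 := by
              rw [norm_smul, Real.norm_eq_abs]
              gcongr
          _ = 2 * δ := by ring

omit [FiniteDimensional ℝ V] [MeasurableSpace V] [BorelSpace V] in
theorem inner_near (e ν : V) (hν : ‖ν‖ = 1) (r δ : ℝ) (a y : V)
    (hy : y ∈ short (2 * r) (2 * δ) e a) :
    |inner ℝ y ν - inner ℝ a ν| ≤ 3 * max (r * |inner ℝ e ν|) δ := by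
  obtain ⟨hy1, hy2⟩ := hy
  have h0 : inner ℝ y ν - inner ℝ a ν = inner ℝ (y - a) e * inner ℝ e ν +
      inner ℝ ((y - a) - (inner ℝ (y - a) e : ℝ) • e) ν := by
    rw [inner_sub_left (y - a), inner_smul_left, ← inner_sub_left]
    simp
  rw [h0]
  calc |inner ℝ (y - a) e * inner ℝ e ν + inner ℝ ((y - a) - (inner ℝ (y - a) e : ℝ) • e) ν|
      ≤ |inner ℝ (y - a) e * inner ℝ e ν| +
        |inner ℝ ((y - a) - (inner ℝ (y - a) e : ℝ) • e) ν| := abs_add_le _ _
    _ ≤ r * |inner ℝ e ν| + 2 * δ := by
        rw [abs_mul]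
        have h1 : |inner ℝ ((y - a) - (inner ℝ (y - a) e : ℝ) • e) ν| ≤ 2 * δ := by
          refine (abs_real_inner_le_norm _ _).trans ?_
          rw [hν, mul_one]
          exact hy2
        have h2 : |inner ℝ (y - a) e| ≤ r := by linarith
        gcongr
    _ ≤ 3 * max (r * |inner ℝ e ν|) δ := by
        have h1 := le_max_left (r * |inner ℝ e ν|) δ
        have h2 := le_max_right (r * |inner ℝ e ν|) δ
        linarith

/-- The integral of a plane wave over a tube. -/
theorem tube_int (μ : Measure V) [μ.IsAddHaarMeasure] (e ν : V) (he : ‖e‖ = 1) (hν : ‖ν‖ = 1)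
    (r δ : ℝ) (hδ : 0 < δ) (hδr : δ ≤ r) (a : V) (g : ℝ → ℝ≥0∞) (hg : Measurable g) :
    ∫⁻ x in short r δ e a, g (inner ℝ x ν) ∂μ ≤
      μ (short (2 * r) (2 * δ) e a) * (ENNReal.ofReal (max (r * |inner ℝ e ν|) δ)⁻¹ *
        ∫⁻ s in closedBall (inner ℝ a ν) (4 * max (r * |inner ℝ e ν|) δ), g s) := by
  set m := max (r * |inner ℝ e ν|) δ with hm
  have hm0 : 0 < m := lt_max_of_lt_right hδ
  obtain ⟨u, hu1, hu2⟩ := exists_shift e ν he hν r δ hδ hδr a
  rw [← hm] at hu1
  set Q := short r δ e a
  set Q2 := short (2 * r) (2 * δ) e a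
  have hQm : MeasurableSet Q := measurableSet_short _ _ _ _
  have hQ2m : MeasurableSet Q2 := measurableSet_short _ _ _ _
  set T : Set ℝ := closedBall 0 (1 / 2) with hT
  have hTm : MeasurableSet T := measurableSet_closedBall
  have hvT : volume T = 1 := by
    rw [hT, Real.volume_closedBall]
    norm_num
  set J := ∫⁻ s in closedBall (inner ℝ a ν) (4 * m), g s with hJ
  have hb : inner ℝ u ν ≠ 0 := by
    intro h0
    rw [h0, abs_zero] at hu1
    linarith
  calc ∫⁻ x in Q, g (inner ℝ x ν) ∂μ
      = ∫⁻ _t in T, ∫⁻ x in Q, g (inner ℝ x ν) ∂μ := by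
        rw [setLIntegral_const, hvT, mul_one]
    _ ≤ ∫⁻ t in T, ∫⁻ y in Q2, g (inner ℝ y ν - t * inner ℝ u ν) ∂μ := by
        refine setLIntegral_mono' hTm fun t ht => ?_
        have ht' : |t| ≤ 1 / 2 := by
          rw [hT, mem_closedBall, dist_zero_right, Real.norm_eq_abs] at ht
          exact ht
        rw [← lintegral_indicator hQm, ← lintegral_indicator hQ2m,
          ← lintegral_sub_right_eq_self _ (t • u)]
        refine lintegral_mono fun y => ?_
        by_cases hy : y - t • u ∈ Q
        · have hy2 : y ∈ Q2 := by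
            have := hu2 t ht' _ hy
            rwa [sub_add_cancel] at this
          rw [indicator_of_mem hy, indicator_of_mem hy2, inner_sub_left, inner_smul_left]
          simp
        · rw [indicator_of_notMem hy]
          exact zero_le
    _ = ∫⁻ y in Q2, (∫⁻ t in T, g (inner ℝ y ν - t * inner ℝ u ν)) ∂μ := by
        refine lintegral_lintegral_swap ?_
        refine Measurable.aemeasurable ?_
        refine hg.comp ?_
        fun_prop
    _ ≤ ∫⁻ _y in Q2, ENNReal.ofReal m⁻¹ * J ∂μ := by
        refine setLIntegral_mono' hQ2m fun y hy => ?_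
        have hy3 := inner_near e ν hν r δ a y hy
        rw [← hm] at hy3
        rw [← lintegral_indicator hTm]
        calc ∫⁻ t, T.indicator (fun t => g (inner ℝ y ν - t * inner ℝ u ν)) t
            ≤ ∫⁻ t, (closedBall (inner ℝ a ν) (4 * m)).indicator g
                (inner ℝ y ν - t * inner ℝ u ν) := by
              refine lintegral_mono fun t => ?_
              by_cases ht : t ∈ T
              · have ht' : |t| ≤ 1 / 2 := by
                  rw [hT, mem_closedBall, dist_zero_right, Real.norm_eq_abs] at ht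
                  exact ht
                have hmem : inner ℝ y ν - t * inner ℝ u ν ∈
                    closedBall (inner ℝ a ν : ℝ) (4 * m) := by
                  rw [mem_closedBall, Real.dist_eq]
                  calc |inner ℝ y ν - t * inner ℝ u ν - inner ℝ a ν|
                      = |(inner ℝ y ν - inner ℝ a ν) - t * inner ℝ u ν| := by ring_nf
                    _ ≤ |inner ℝ y ν - inner ℝ a ν| + |t * inner ℝ u ν| := abs_sub _ _
                    _ ≤ 3 * m + 1 / 2 * m := by
                        rw [abs_mul, hu1]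
                        gcongr
                    _ ≤ 4 * m := by linarith
                rw [indicator_of_mem ht, indicator_of_mem hmem]
              · rw [indicator_of_notMem ht]
                exact zero_le
          _ = ENNReal.ofReal |(inner ℝ u ν : ℝ)⁻¹| *
                ∫⁻ s, (closedBall (inner ℝ a ν) (4 * m)).indicator g s :=
              lint_affine _ (hg.indicator measurableSet_closedBall) _ _ hb
          _ = ENNReal.ofReal m⁻¹ * J := by
              rw [abs_inv, hu1, lintegral_indicator measurableSet_closedBall]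
    _ = μ Q2 * (ENNReal.ofReal m⁻¹ * J) := by
        rw [setLIntegral_const, mul_comm]

/-- The volume of the double tube. -/
theorem double_tube (μ : Measure V) [μ.IsAddHaarMeasure] (r δ : ℝ) (e a : V) :
    μ (short (2 * r) (2 * δ) e a) ≤ 2 ^ Module.finrank ℝ V * μ (short r δ e a) := by
  have hsub : short (2 * r) (2 * δ) e a ⊆ AffineMap.homothety a (2 : ℝ) '' (short r δ e a) := by
    rintro y ⟨hy1, hy2⟩
    refine ⟨a + (2⁻¹ : ℝ) • (y - a), ⟨?_, ?_⟩, ?_⟩
    · rw [add_sub_cancel_left, inner_smul_left, abs_mul]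
      simp only [conj_trivial]
      rw [abs_of_pos (by norm_num : (0 : ℝ) < 2⁻¹)]
      linarith
    · rw [add_sub_cancel_left, inner_smul_left]
      simp only [conj_trivial]
      rw [← smul_smul, ← smul_sub, norm_smul, Real.norm_eq_abs,
        abs_of_pos (by norm_num : (0 : ℝ) < 2⁻¹)]
      linarith
    · rw [AffineMap.homothety_apply]
      simp
  refine (measure_mono hsub).trans ?_
  rw [Measure.addHaar_image_homothety, abs_of_pos (by positivity)]
  refine le_of_eq ?_
  rw [ENNReal.ofReal_pow (by norm_num)]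
  norm_num

end Pool.Agent.H5.PW
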